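import Pool.Agent.K1H42.HP.Stm

/-!
# HP-H: the moment inequality for an intersecting family (S_MOM)
-/

namespace Pool.Agent.K1H7.HP

open Module Finset Pool.Agent.K1H42.HP

section
variable {F V : Type} [Field F] [AddCommGroup V] [Module F V] [Finite V]

/-- double counting of flags (point, member) -/
lemma sum_mul_dg (𝓕 : Finset (Submodule F V)) (T : Finset (Submodule F V))
    (f : Submodule F V → ℝ) [∀ A : Submodule F V, DecidablePred (fun P : Submodule F V => P ≤ A)] :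
    ∑ P ∈ T, f P * dg 𝓕 P = ∑ A ∈ 𝓕, ∑ P ∈ T.filter (fun P => P ≤ A), f P := by
  classical
  have h1 : ∀ P ∈ T, f P * dg 𝓕 P = ∑ A ∈ 𝓕, if P ≤ A then f P else 0 := by
    intro P _
    have h2 : above 𝓕 P = 𝓕.filter (fun A => P ≤ A) := by
      ext A; simp
    rw [dg, h2, ← Finset.sum_filter, Finset.sum_const, nsmul_eq_mul, mul_comm]
  rw [Finset.sum_congr rfl h1, Finset.sum_comm]
  refine Finset.sum_congr rfl fun A _ => ?_
  rw [Finset.sum_filter]

lemma filter_Gr_one (A : Submodule F V) [DecidablePred (fun P : Submodule F V => P ≤ A)] :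
    (Gr F V 1).filter (fun P => P ≤ A) = pts A := by
  ext P; simp

lemma filter_pts (H A : Submodule F V) [DecidablePred (fun P : Submodule F V => P ≤ A)] :
    (pts H).filter (fun P => P ≤ A) = pts (A ⊓ H) := by
  ext P
  simp only [Finset.mem_filter, mem_pts, le_inf_iff]
  tauto

lemma pts_top : pts (⊤ : Submodule F V) = Gr F V 1 := by
  ext P; simp

lemma pts_ne_empty {A : Submodule F V} (h : A ≠ ⊥) : (pts A).Nonempty := by
  obtain ⟨x, hx, hx0⟩ := (Submodule.ne_bot_iff A).1 h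
  refine ⟨F ∙ x, ?_⟩
  rw [mem_pts]
  refine ⟨finrank_span_singleton hx0, ?_⟩
  rw [Submodule.span_le]
  simpa using hx

/-- power mean inequality -/
lemma pow4 {ι : Type*} (s : Finset ι) (g : ι → ℝ) :
    (∑ i ∈ s, g i) ^ 4 ≤ (s.card : ℝ) ^ 3 * ∑ i ∈ s, g i ^ 4 := by
  have h1 : (∑ i ∈ s, g i) ^ 2 ≤ (s.card : ℝ) * ∑ i ∈ s, g i ^ 2 := sq_sum_le_card_mul_sum_sq
  have h2 : (∑ i ∈ s, g i ^ 2) ^ 2 ≤ (s.card : ℝ) * ∑ i ∈ s, (g i ^ 2) ^ 2 :=
    sq_sum_le_card_mul_sum_sq
  have h3 : ∑ i ∈ s, (g i ^ 2) ^ 2 = ∑ i ∈ s, g i ^ 4 :=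
    Finset.sum_congr rfl fun i _ => by ring
  rw [h3] at h2
  have h4 : (0 : ℝ) ≤ s.card := by positivity
  calc (∑ i ∈ s, g i) ^ 4 = ((∑ i ∈ s, g i) ^ 2) ^ 2 := by ring
    _ ≤ ((s.card : ℝ) * ∑ i ∈ s, g i ^ 2) ^ 2 := by
        apply pow_le_pow_left₀ (by positivity) h1
    _ = (s.card : ℝ) ^ 2 * (∑ i ∈ s, g i ^ 2) ^ 2 := by ring
    _ ≤ (s.card : ℝ) ^ 2 * ((s.card : ℝ) * ∑ i ∈ s, g i ^ 4) := by
        apply mul_le_mul_of_nonneg_left h2 (by positivity)
    _ = (s.card : ℝ) ^ 3 * ∑ i ∈ s, g i ^ 4 := by ring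

end

/-- the moment inequality -/
theorem t_MOM (hP : S_PTS) (hN : S_NUM) (hFo : S_FOURTH) : S_MOM := by
  intro F _ _ V _ _ _ q n k ζ G hq hn hnk hk 𝓕 h𝓕 hint hne hdeg hζ hH
  classical
  have hq2 : 2 ≤ q := by rw [← hq]; exact Fintype.one_lt_card
  have hq2' : (2 : ℝ) ≤ q := by exact_mod_cast hq2
  obtain ⟨hDpos, -, -, -, hbr, hbrle, hbrs⟩ := hN q n k hq2 (by omega) (by omega)
  set N : ℝ := (𝓕.card : ℝ) with hNdef
  have hNpos : 0 < N := by
    rw [hNdef]; exact_mod_cast hne.card_pos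
  have hqk : (1 : ℝ) ≤ (q : ℝ) ^ k := one_le_pow₀ (by linarith)
  have hqn : (1 : ℝ) ≤ (q : ℝ) ^ n := one_le_pow₀ (by linarith)
  have hqn0 : (0 : ℝ) < (q : ℝ) ^ n := by positivity
  -- facts about br
  have hbrn : (1 : ℝ) ≤ br q n := by
    obtain ⟨m, rfl⟩ : ∃ m, n = m + 1 := ⟨n - 1, by omega⟩
    rw [br, Finset.sum_range_succ']
    have : (0 : ℝ) ≤ ∑ i ∈ Finset.range m, (q : ℝ) ^ (i + 1) :=
      Finset.sum_nonneg fun i _ => by positivity
    simp only [pow_zero]
    linarith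
  have hbr0 : ∀ m, (0 : ℝ) ≤ br q m := fun m =>
    Finset.sum_nonneg fun i _ => by positivity
  have hbrn0 : (0 : ℝ) < br q n := by linarith
  set p : ℝ := br q k / br q n with hp
  have hp0 : 0 ≤ p := div_nonneg (hbr0 k) hbrn0.le
  have hpn : p * br q n = br q k := by
    rw [hp]; field_simp
  -- p ≤ ζ
  have hpζ : p ≤ ζ := by
    have h1 : br q k * (q : ℝ) ^ n ≤ (q : ℝ) ^ k * br q n := by
      have h2 : (0 : ℝ) < (q : ℝ) - 1 := by linarith
      have h3 : (br q k * (q : ℝ) ^ n) * ((q : ℝ) - 1) ≤ ((q : ℝ) ^ k * br q n) * ((q : ℝ) - 1) := by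
        have e1 : (br q k * (q : ℝ) ^ n) * ((q : ℝ) - 1) = ((q : ℝ) ^ k - 1) * (q : ℝ) ^ n := by
          rw [← hbr k]; ring
        have e2 : ((q : ℝ) ^ k * br q n) * ((q : ℝ) - 1) = (q : ℝ) ^ k * ((q : ℝ) ^ n - 1) := by
          rw [← hbr n]; ring
        rw [e1, e2]
        have h4 : (q : ℝ) ^ k ≤ (q : ℝ) ^ n := pow_le_pow_right₀ (by linarith) (by omega)
        nlinarith
      exact le_of_mul_le_mul_right h3 h2
    have h5 : p * (q : ℝ) ^ n ≤ ζ * (q : ℝ) ^ n := by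
      refine le_trans ?_ hζ
      rw [hp, div_mul_eq_mul_div, div_le_iff₀ hbrn0]
      exact h1
    exact le_of_mul_le_mul_right h5 hqn0
  have hζ0 : 0 ≤ ζ := hp0.trans hpζ
  -- cardinalities
  have hcard1 : (((Gr F V 1).card : ℕ) : ℝ) = br q n := by
    have := hP F V q hq (⊤ : Submodule F V)
    rw [pts_top, finrank_top, hn] at this
    exact this
  have hcardA : ∀ A ∈ 𝓕, ((pts A).card : ℝ) = br q k := by
    intro A hA
    rw [hP F V q hq A, mem_Gr.1 (h𝓕 hA)]
  -- w and c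
  set w : Submodule F V → ℝ := fun P => dg 𝓕 P / N with hw
  set c : Submodule F V → ℝ := fun P => w P - p with hc
  have hw0 : ∀ P, 0 ≤ w P := fun P => by
    rw [hw]; simp only [dg]; positivity
  have hwN : ∀ P, N * w P = dg 𝓕 P := fun P => by
    rw [hw]; simp only; field_simp
  have hwζ : ∀ P ∈ Gr F V 1, w P ≤ ζ := by
    intro P hP1
    have := hdeg P hP1
    have h2 : w P = dg 𝓕 P / N := rfl
    rw [h2, div_le_iff₀ hNpos]
    exact this
  have hsumw : ∑ P ∈ Gr F V 1, w P = br q k := by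
    have h1 : ∑ P ∈ Gr F V 1, (1 : ℝ) * dg 𝓕 P = N * br q k := by
      rw [sum_mul_dg]
      have h2 : ∀ A ∈ 𝓕, ∑ P ∈ (Gr F V 1).filter (fun P => P ≤ A), (1 : ℝ) = br q k := by
        intro A hA
        rw [filter_Gr_one, Finset.sum_const, nsmul_eq_mul, mul_one, hcardA A hA]
      rw [Finset.sum_congr rfl h2, Finset.sum_const, nsmul_eq_mul]
    have h3 : N * ∑ P ∈ Gr F V 1, w P = N * br q k := by
      rw [← h1, Finset.mul_sum]
      refine Finset.sum_congr rfl fun P _ => ?_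
      rw [hwN, one_mul]
    exact mul_left_cancel₀ hNpos.ne' h3
  have hsump : ∑ P ∈ Gr F V 1, p = br q k := by
    rw [Finset.sum_const, nsmul_eq_mul, hcard1, mul_comm, hpn]
  have hsumc : ∑ P ∈ Gr F V 1, c P = 0 := by
    rw [hc, Finset.sum_sub_distrib, hsumw, hsump, sub_self]
  have hcζ : ∀ P ∈ Gr F V 1, |c P| ≤ ζ := by
    intro P hP1
    have h1 := hw0 P
    have h2 := hwζ P hP1
    rw [abs_le]
    have h3 : c P = w P - p := rfl
    constructor <;> rw [h3] <;> linarith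
  -- hyperplanes
  have hhyp : ∀ H ∈ Gr F V (n - 1), |∑ P ∈ pts H, c P| ≤ G := by
    intro H hH1
    have hHf : finrank F H = n - 1 := mem_Gr.1 hH1
    set B : ℝ := ((below 𝓕 H).card : ℝ) with hB
    -- sum of w over pts H
    have h1 : ∑ P ∈ pts H, (1 : ℝ) * dg 𝓕 P = N * br q (k - 1) + (q : ℝ) ^ (k - 1) * B := by
      rw [sum_mul_dg]
      have h2 : ∀ A ∈ 𝓕, ∑ P ∈ (pts H).filter (fun P => P ≤ A), (1 : ℝ)
          = br q (k - 1) + if A ≤ H then (q : ℝ) ^ (k - 1) else 0 := by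
        intro A hA
        have hAk : finrank F A = k := mem_Gr.1 (h𝓕 hA)
        rw [filter_pts, Finset.sum_const, nsmul_eq_mul, mul_one, hP F V q hq]
        split_ifs with hAH
        · rw [inf_eq_left.2 hAH, hAk]
          have := hbrs (k - 1)
          rw [show k - 1 + 1 = k by omega] at this
          exact this
        · have h3 : finrank F ↥(A ⊔ H) = n := by
            have h4 : H < A ⊔ H := by
              refine lt_of_le_of_ne le_sup_right ?_
              intro h5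
              exact hAH (by rw [h5]; exact le_sup_left)
            have h5 : finrank F H < finrank F ↥(A ⊔ H) := Submodule.finrank_lt_finrank_of_lt h4
            have h6 : finrank F ↥(A ⊔ H) ≤ n := hn ▸ Submodule.finrank_le _
            omega
          have h7 := Submodule.finrank_sup_add_finrank_inf_eq A H
          have h8 : finrank F ↥(A ⊓ H) = k - 1 := by omega
          rw [h8, add_zero]
      rw [Finset.sum_congr rfl h2, Finset.sum_add_distrib, Finset.sum_const, nsmul_eq_mul,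
        ← Finset.sum_filter, Finset.sum_const, nsmul_eq_mul]
      have h9 : 𝓕.filter (fun A => A ≤ H) = below 𝓕 H := by
        ext A; simp
      rw [h9]; ring
    have h2 : N * ∑ P ∈ pts H, w P = N * br q (k - 1) + (q : ℝ) ^ (k - 1) * B := by
      rw [← h1, Finset.mul_sum]
      refine Finset.sum_congr rfl fun P _ => ?_
      rw [hwN, one_mul]
    have h3 : ∑ P ∈ pts H, c P = ∑ P ∈ pts H, w P - p * br q (n - 1) := by
      rw [hc, Finset.sum_sub_distrib, Finset.sum_const, nsmul_eq_mul, hP F V q hq H, hHf]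
      ring
    -- the constant part
    have h4 : br q (k - 1) - p * br q (n - 1) ≤ 0 ∧ -1 ≤ br q (k - 1) - p * br q (n - 1) := by
      have e1 : br q k = 1 + q * br q (k - 1) := by
        have : k = (k - 1) + 1 := by omega
        conv_lhs => rw [this]
        rw [br, Finset.sum_range_succ', br, Finset.mul_sum]
        simp only [pow_zero, pow_succ']
        ring
      have e2 : br q n = 1 + q * br q (n - 1) := by
        have : n = (n - 1) + 1 := by omega
        conv_lhs => rw [this]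
        rw [br, Finset.sum_range_succ', br, Finset.mul_sum]
        simp only [pow_zero, pow_succ']
        ring
      have e3 : (q : ℝ) * (br q (k - 1) - p * br q (n - 1)) = p - 1 := by
        have e4 : (q : ℝ) * br q (k - 1) = br q k - 1 := by linarith
        have e5 : (q : ℝ) * br q (n - 1) = br q n - 1 := by linarith
        calc (q : ℝ) * (br q (k - 1) - p * br q (n - 1))
            = (q : ℝ) * br q (k - 1) - p * ((q : ℝ) * br q (n - 1)) := by ring
          _ = (br q k - 1) - p * (br q n - 1) := by rw [e4, e5]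
          _ = p - 1 := by rw [mul_sub, hpn]; ring
      have e6 : p ≤ 1 := by
        rw [hp, div_le_one hbrn0]
        rw [br, br]
        refine Finset.sum_le_sum_of_subset_of_nonneg ?_ (fun i _ _ => by positivity)
        intro i hi
        rw [Finset.mem_range] at hi ⊢
        omega
      constructor
      · by_contra hcon
        push Not at hcon
        have : 0 < (q : ℝ) * (br q (k - 1) - p * br q (n - 1)) := by positivity
        linarith
      · by_contra hcon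
        push Not at hcon
        have h7 : (q : ℝ) * (br q (k - 1) - p * br q (n - 1)) < (q : ℝ) * (-1) :=
          mul_lt_mul_of_pos_left hcon (by linarith)
        linarith
    have h5 := hH H hH1
    have hB0 : 0 ≤ B := by positivity
    have h6 : N * |∑ P ∈ pts H, c P| ≤ N * G := by
      have h7 : N * ∑ P ∈ pts H, c P
          = N * (br q (k - 1) - p * br q (n - 1)) + (q : ℝ) ^ (k - 1) * B := by
        rw [h3, mul_sub, h2]; ring
      rw [← abs_of_pos hNpos, ← abs_mul, abs_of_pos hNpos, h7]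
      have h8 : 0 ≤ (q : ℝ) ^ (k - 1) * B := by positivity
      rw [abs_le]
      constructor
      · nlinarith [h4.1, h4.2]
      · nlinarith [h4.1, h4.2]
    exact le_of_mul_le_mul_left h6 hNpos
  -- the second moment
  set N2 : ℝ := ∑ P ∈ Gr F V 1, c P ^ 2 with hN2
  have hww : 1 ≤ ∑ P ∈ Gr F V 1, w P ^ 2 := by
    have h1 : N * N ≤ ∑ P ∈ Gr F V 1, dg 𝓕 P * dg 𝓕 P := by
      rw [sum_mul_dg]
      have h2 : ∀ A ∈ 𝓕, N ≤ ∑ P ∈ (Gr F V 1).filter (fun P => P ≤ A), dg 𝓕 P := by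
        intro A hA
        rw [filter_Gr_one]
        have h3 : ∑ P ∈ pts A, dg 𝓕 P = ∑ P ∈ pts A, (1 : ℝ) * dg 𝓕 P := by simp
        rw [h3, sum_mul_dg]
        have h4 : ∀ B ∈ 𝓕, (1 : ℝ) ≤ ∑ P ∈ (pts A).filter (fun P => P ≤ B), (1 : ℝ) := by
          intro B hB
          rw [filter_pts, Finset.sum_const, nsmul_eq_mul, mul_one]
          have h5 := (pts_ne_empty (hint B hB A hA)).card_pos
          exact_mod_cast h5
        have h5 : N = ∑ B ∈ 𝓕, (1 : ℝ) := by
          rw [Finset.sum_const, nsmul_eq_mul, mul_one]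
        rw [h5]
        exact Finset.sum_le_sum h4
      calc N * N = ∑ A ∈ 𝓕, N := by rw [Finset.sum_const, nsmul_eq_mul]
        _ ≤ _ := Finset.sum_le_sum h2
    have h6 : ∑ P ∈ Gr F V 1, dg 𝓕 P * dg 𝓕 P = N * N * ∑ P ∈ Gr F V 1, w P ^ 2 := by
      rw [Finset.mul_sum]
      refine Finset.sum_congr rfl fun P _ => ?_
      rw [← hwN]; ring
    rw [h6] at h1
    have h7 : 0 < N * N := by positivity
    by_contra hcon
    push Not at hcon
    have h8 : N * N * ∑ P ∈ Gr F V 1, w P ^ 2 < N * N * 1 := mul_lt_mul_of_pos_left hcon h7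
    linarith
  have hN2w : N2 = ∑ P ∈ Gr F V 1, w P ^ 2 - p * br q k := by
    have h1 : ∀ P ∈ Gr F V 1, c P ^ 2 = w P ^ 2 - 2 * p * w P + p * p := by
      intro P _
      have h3 : c P = w P - p := rfl
      rw [h3]; ring
    rw [hN2, Finset.sum_congr rfl h1, Finset.sum_add_distrib, Finset.sum_sub_distrib,
      ← Finset.mul_sum, hsumw, ← Finset.mul_sum, hsump]
    ring
  have hN2half : 1 / 2 ≤ N2 := by
    have h1 : p * br q k ≤ 1 / 2 := by
      rw [hp, div_mul_eq_mul_div, div_le_iff₀ hbrn0]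
      -- 2 [k]^2 ≤ [n]
      have h2 : (0 : ℝ) < ((q : ℝ) - 1) * ((q : ℝ) - 1) := by nlinarith
      have h3 : (2 * (br q k * br q k)) * (((q : ℝ) - 1) * ((q : ℝ) - 1))
          ≤ br q n * (((q : ℝ) - 1) * ((q : ℝ) - 1)) := by
        have e1 : (2 * (br q k * br q k)) * (((q : ℝ) - 1) * ((q : ℝ) - 1))
            = 2 * (((q : ℝ) ^ k - 1) * ((q : ℝ) ^ k - 1)) := by
          rw [← hbr k]; ring
        have e2 : br q n * (((q : ℝ) - 1) * ((q : ℝ) - 1))
            = ((q : ℝ) ^ n - 1) * ((q : ℝ) - 1) := by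
          rw [← hbr n]; ring
        rw [e1, e2]
        have h4 : (q : ℝ) ^ (2 * k + 1) ≤ (q : ℝ) ^ n := pow_le_pow_right₀ (by linarith) hnk
        have h5 : (q : ℝ) ^ (2 * k + 1) = (q : ℝ) ^ k * (q : ℝ) ^ k * q := by ring
        have h6 : 2 * ((q : ℝ) ^ k * (q : ℝ) ^ k) ≤ (q : ℝ) ^ n := by
          rw [h5] at h4
          have : 0 ≤ (q : ℝ) ^ k * (q : ℝ) ^ k := by positivity
          nlinarith
        have h7 : (q : ℝ) ^ n - 1 ≤ ((q : ℝ) ^ n - 1) * ((q : ℝ) - 1) := by nlinarith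
        nlinarith
      have := le_of_mul_le_mul_right h3 h2
      linarith
    rw [hN2w]; linarith
  have hN2pos : 0 < N2 := by linarith
  -- g
  set g : Submodule F V → ℝ := fun A => ∑ P ∈ pts A, c P with hg
  have hsumg : ∑ A ∈ 𝓕, g A = N * N2 := by
    have h1 : ∑ P ∈ Gr F V 1, c P * dg 𝓕 P = ∑ A ∈ 𝓕, g A := by
      rw [sum_mul_dg]
      refine Finset.sum_congr rfl fun A _ => ?_
      rw [filter_Gr_one]
    rw [← h1]
    have h2 : ∀ P ∈ Gr F V 1, c P * dg 𝓕 P = N * c P ^ 2 + N * p * c P := by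
      intro P _
      have h3 : c P = w P - p := rfl
      rw [← hwN, h3]; ring
    rw [Finset.sum_congr rfl h2, Finset.sum_add_distrib, ← Finset.mul_sum, ← Finset.mul_sum,
      hsumc, mul_zero, add_zero]
  have hg4 : N * N2 ^ 4 ≤ ∑ A ∈ Gr F V k, g A ^ 4 := by
    have h1 := pow4 𝓕 g
    rw [hsumg] at h1
    have h2 : N ^ 3 * (N * N2 ^ 4) ≤ N ^ 3 * ∑ A ∈ 𝓕, g A ^ 4 := by
      calc N ^ 3 * (N * N2 ^ 4) = (N * N2) ^ 4 := by ring
        _ ≤ _ := h1
    have h3 := le_of_mul_le_mul_left h2 (by positivity)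
    refine h3.trans ?_
    exact Finset.sum_le_sum_of_subset_of_nonneg h𝓕 (fun i _ _ => by positivity)
  have hfour := hFo F V q n k c ζ G hq hn hnk hk hsumc hcζ hhyp
  have habs : ∑ P ∈ Gr F V 1, |c P| ≤ 2 * (q : ℝ) ^ k := by
    have h1 : ∀ P ∈ Gr F V 1, |c P| ≤ w P + p := by
      intro P _
      have h3 : c P = w P - p := rfl
      have h4 := hw0 P
      rw [h3, abs_le]
      constructor <;> linarith
    calc ∑ P ∈ Gr F V 1, |c P| ≤ ∑ P ∈ Gr F V 1, (w P + p) := Finset.sum_le_sum h1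
      _ = br q k + br q k := by rw [Finset.sum_add_distrib, hsumw, hsump]
      _ ≤ 2 * (q : ℝ) ^ k := by linarith [hbrle k]
  have habs0 : 0 ≤ ∑ P ∈ Gr F V 1, |c P| := Finset.sum_nonneg fun _ _ => abs_nonneg _
  have habs2 : (∑ P ∈ Gr F V 1, |c P|) ^ 2 ≤ 4 * (q : ℝ) ^ (2 * k) := by
    calc (∑ P ∈ Gr F V 1, |c P|) ^ 2 ≤ (2 * (q : ℝ) ^ k) ^ 2 :=
          pow_le_pow_left₀ habs0 habs 2
      _ = 4 * (q : ℝ) ^ (2 * k) := by ring
  have hD1 := hDpos 1
  have hD2 := hDpos 2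
  have hD3 := hDpos 3
  set X : ℝ := (q : ℝ) ^ 2 * D q n k 3 * G ^ 2 + D q n k 1 * ζ ^ 2 with hX
  set Y : ℝ := 6 * ((q : ℝ) + 1) ^ 2 * ζ ^ 2 * D q n k 2 * (4 * (q : ℝ) ^ (2 * k)) with hY
  have hX0 : 0 ≤ X := by positivity
  have hY0 : 0 ≤ Y := by positivity
  have hmain : N * N2 ^ 4 ≤ X * N2 + Y := by
    refine hg4.trans (hfour.trans ?_)
    have h1 : 6 * ((q : ℝ) + 1) ^ 2 * ζ ^ 2 * D q n k 2 * (∑ P ∈ Gr F V 1, |c P|) ^ 2 ≤ Y := by
      rw [hY]
      exact mul_le_mul_of_nonneg_left habs2 (by positivity)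
    have h2 : (q : ℝ) ^ 2 * D q n k 3 * G ^ 2 * N2 + D q n k 1 * ζ ^ 2 * N2 = X * N2 := by
      rw [hX]; ring
    linarith
  have hfin : N ≤ 8 * X + 16 * Y := by
    have h1 : X * N2 ≤ 8 * X * N2 ^ 4 := by
      have h2 : N2 ≤ 8 * N2 ^ 4 := by
        have h3 : (1 / 2 : ℝ) ^ 3 ≤ N2 ^ 3 := pow_le_pow_left₀ (by norm_num) hN2half 3
        have h4 : N2 * 1 ≤ N2 * (8 * N2 ^ 3) := by
          apply mul_le_mul_of_nonneg_left _ hN2pos.le
          norm_num at h3 ⊢
          linarith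
        calc N2 = N2 * 1 := by ring
          _ ≤ N2 * (8 * N2 ^ 3) := h4
          _ = 8 * N2 ^ 4 := by ring
      calc X * N2 ≤ X * (8 * N2 ^ 4) := mul_le_mul_of_nonneg_left h2 hX0
        _ = 8 * X * N2 ^ 4 := by ring
    have h5 : Y ≤ 16 * Y * N2 ^ 4 := by
      have h3 : (1 / 2 : ℝ) ^ 4 ≤ N2 ^ 4 := pow_le_pow_left₀ (by norm_num) hN2half 4
      have h6 : (1 : ℝ) ≤ 16 * N2 ^ 4 := by
        norm_num at h3 ⊢
        linarith
      calc Y = Y * 1 := by ring
        _ ≤ Y * (16 * N2 ^ 4) := mul_le_mul_of_nonneg_left h6 hY0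
        _ = 16 * Y * N2 ^ 4 := by ring
    have h7 : N * N2 ^ 4 ≤ (8 * X + 16 * Y) * N2 ^ 4 := by
      calc N * N2 ^ 4 ≤ X * N2 + Y := hmain
        _ ≤ 8 * X * N2 ^ 4 + 16 * Y * N2 ^ 4 := by linarith
        _ = _ := by ring
    exact le_of_mul_le_mul_right h7 (by positivity)
  calc N ≤ 8 * X + 16 * Y := hfin
    _ = _ := by rw [hX, hY]; ring

end Pool.Agent.K1H7.HP
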